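import Mathlib
import Pool.Agent.Y813.RL.Stm
import Pool.Agent.Y813.RL.HI

set_option autoImplicit false

/-! Job 197 (MP_f1d0b6_nt): quotients of logarithmic growth are holomorphic. -/

open Complex Metric Topology Filter

namespace Pool.Agent.Y155.RL

open Pool.Agent.Y813.RL

/-- the limit of `(t - t0) φ / ψ` -/
lemma tendsto_mul_quot {φ ψ : ℂ → ℂ} {t0 : ℂ} (hψ : AnalyticAt ℂ ψ t0)
    (hne : analyticOrderAt ψ t0 ≠ ⊤) {K : ℝ}
    (hb : ∀ᶠ t in 𝓝 t0, ‖φ t‖ ≤ K * ‖ψ t‖ * (1 + |Real.log ‖ψ t‖|)) :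
    Tendsto (fun t => (t - t0) * (φ t / ψ t)) (𝓝[≠] t0) (𝓝 0) := by
  obtain ⟨g, hg, hg0, hev⟩ := hψ.analyticOrderAt_ne_top.1 hne
  set n := analyticOrderNatAt ψ t0
  have hK : 0 ≤ |K| := abs_nonneg K
  -- bound
  have hbound : ∀ᶠ t in 𝓝[≠] t0, ‖(t - t0) * (φ t / ψ t)‖ ≤
      |K| * (‖t - t0‖ + n * |‖t - t0‖ * Real.log ‖t - t0‖| + ‖t - t0‖ * |Real.log ‖g t‖|) := by
    have hgne : ∀ᶠ t in 𝓝 t0, g t ≠ 0 := hg.continuousAt.eventually_ne hg0
    filter_upwards [hb.filter_mono nhdsWithin_le_nhds, hev.filter_mono nhdsWithin_le_nhds,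
      hgne.filter_mono nhdsWithin_le_nhds, self_mem_nhdsWithin] with t h1 h2 h3 h4
    have ht : t - t0 ≠ 0 := sub_ne_zero.mpr h4
    have hnt : 0 < ‖t - t0‖ := norm_pos_iff.mpr ht
    have hψt : ψ t ≠ 0 := by
      rw [h2, smul_eq_mul]
      exact mul_ne_zero (pow_ne_zero _ ht) h3
    have hlog : Real.log ‖ψ t‖ = n * Real.log ‖t - t0‖ + Real.log ‖g t‖ := by
      rw [h2, smul_eq_mul, norm_mul, norm_pow,
        Real.log_mul (pow_ne_zero _ hnt.ne') (norm_ne_zero_iff.mpr h3), Real.log_pow]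
    have hψp : 0 < ‖ψ t‖ := norm_pos_iff.mpr hψt
    have h5 : ‖φ t / ψ t‖ ≤ |K| * (1 + |Real.log ‖ψ t‖|) := by
      rw [norm_div, div_le_iff₀ hψp]
      calc ‖φ t‖ ≤ K * ‖ψ t‖ * (1 + |Real.log ‖ψ t‖|) := h1
        _ ≤ |K| * ‖ψ t‖ * (1 + |Real.log ‖ψ t‖|) := by
            gcongr
            exact le_abs_self K
        _ = _ := by ring
    have h6 : |Real.log ‖ψ t‖| ≤ n * |Real.log ‖t - t0‖| + |Real.log ‖g t‖| := by
      rw [hlog]
      refine (abs_add_le _ _).trans ?_
      rw [abs_mul, Nat.abs_cast]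
    rw [norm_mul]
    calc ‖t - t0‖ * ‖φ t / ψ t‖ ≤ ‖t - t0‖ * (|K| * (1 + |Real.log ‖ψ t‖|)) := by gcongr
      _ ≤ ‖t - t0‖ * (|K| * (1 + (n * |Real.log ‖t - t0‖| + |Real.log ‖g t‖|))) := by gcongr
      _ = _ := by
          rw [abs_mul, abs_of_pos hnt]
          ring
  -- the bound tends to zero
  have h0 : Tendsto (fun t : ℂ => ‖t - t0‖) (𝓝[≠] t0) (𝓝 0) := by
    have : Tendsto (fun t : ℂ => ‖t - t0‖) (𝓝 t0) (𝓝 ‖t0 - t0‖) :=
      Continuous.tendsto (by fun_prop) t0
    rw [sub_self, norm_zero] at this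
    exact this.mono_left nhdsWithin_le_nhds
  have h1 : Tendsto (fun t : ℂ => |‖t - t0‖ * Real.log ‖t - t0‖|) (𝓝[≠] t0) (𝓝 0) := by
    have h2 : Tendsto (fun x : ℝ => |x * Real.log x|) (𝓝 0) (𝓝 |0 * Real.log 0|) :=
      (Real.continuous_mul_log.abs).tendsto 0
    rw [zero_mul, abs_zero] at h2
    exact h2.comp h0
  have h2 : Tendsto (fun t : ℂ => |Real.log ‖g t‖|) (𝓝[≠] t0) (𝓝 |Real.log ‖g t0‖|) := by
    have : ContinuousAt (fun t : ℂ => |Real.log ‖g t‖|) t0 :=
      (hg.continuousAt.norm.log (norm_ne_zero_iff.mpr hg0)).abs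
    exact this.tendsto.mono_left nhdsWithin_le_nhds
  have h3 : Tendsto (fun t : ℂ => |K| * (‖t - t0‖ + n * |‖t - t0‖ * Real.log ‖t - t0‖| +
      ‖t - t0‖ * |Real.log ‖g t‖|)) (𝓝[≠] t0) (𝓝 (|K| * (0 + n * 0 + 0 * |Real.log ‖g t0‖|))) :=
    ((h0.add (h1.const_mul _)).add (h0.mul h2)).const_mul _
  rw [mul_zero, zero_mul, add_zero, add_zero, mul_zero] at h3
  exact squeeze_zero_norm' hbound h3

/-- one variable: the quotient has removable singularities -/
lemma quot_one {D : Set ℂ} (hD : IsOpen D) (hDc : IsPreconnected D) {φ ψ : ℂ → ℂ}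
    (hφ : DifferentiableOn ℂ φ D) (hψ : DifferentiableOn ℂ ψ D) (hne : ∃ t ∈ D, ψ t ≠ 0) {K : ℝ}
    (hb : ∀ t ∈ D, ‖φ t‖ ≤ K * ‖ψ t‖ * (1 + |Real.log ‖ψ t‖|)) :
    ∃ χ : ℂ → ℂ, DifferentiableOn ℂ χ D ∧ (∀ t ∈ D, φ t = ψ t * χ t) ∧
      (∀ t, ψ t ≠ 0 → χ t = φ t / ψ t) := by
  classical
  have hψa : AnalyticOnNhd ℂ ψ D := hψ.analyticOnNhd hD
  have hord : ∀ t ∈ D, analyticOrderAt ψ t ≠ ⊤ := by
    obtain ⟨t1, ht1, h1⟩ := hne
    intro t ht
    refine AnalyticOnNhd.analyticOrderAt_ne_top_of_isPreconnected hψa hDc ht1 ht ?_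
    intro htop
    rw [analyticOrderAt_eq_top] at htop
    exact h1 htop.self_of_nhds
  let χ : ℂ → ℂ := fun t => if ψ t ≠ 0 then φ t / ψ t else limUnder (𝓝[≠] t) (fun s => φ s / ψ s)
  have hχ1 : ∀ t, ψ t ≠ 0 → χ t = φ t / ψ t := fun t ht => if_pos ht
  have hdiff : ∀ t ∈ D, DifferentiableAt ℂ χ t := by
    intro t0 ht0
    by_cases h0 : ψ t0 ≠ 0
    · have h1 : χ =ᶠ[𝓝 t0] fun t => φ t / ψ t := by
        have : ∀ᶠ t in 𝓝 t0, ψ t ≠ 0 := (hψa t0 ht0).continuousAt.eventually_ne h0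
        filter_upwards [this] with t ht
        exact hχ1 t ht
      refine DifferentiableAt.congr_of_eventuallyEq ?_ h1
      exact (hφ.differentiableAt (hD.mem_nhds ht0)).div (hψ.differentiableAt (hD.mem_nhds ht0)) h0
    · -- an isolated zero
      have hiso : ∀ᶠ t in 𝓝[≠] t0, ψ t ≠ 0 := by
        rcases (hψa t0 ht0).eventually_eq_zero_or_eventually_ne_zero with h | h
        · exact absurd (analyticOrderAt_eq_top.mpr h) (hord t0 ht0)
        · exact h
      rw [eventually_nhdsWithin_iff] at hiso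
      obtain ⟨r, hr, hball⟩ := Metric.eventually_nhds_iff_ball.mp
        (hiso.and (hD.mem_nhds ht0))
      have hlim := tendsto_mul_quot (φ := φ) (hψa t0 ht0) (hord t0 ht0)
        (Filter.eventually_of_mem (hD.mem_nhds ht0) hb)
      have hd : DifferentiableOn ℂ (fun t => φ t / ψ t) (ball t0 r \ {t0}) := by
        intro t ht
        have h2 := hball t ht.1
        exact ((hφ.differentiableAt (hD.mem_nhds h2.2)).div
          (hψ.differentiableAt (hD.mem_nhds h2.2)) (h2.1 ht.2)).differentiableWithinAt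
      have ho : (fun z => φ z / ψ z - φ t0 / ψ t0) =o[𝓝[≠] t0] fun z => (z - t0)⁻¹ := by
        rw [Asymptotics.isLittleO_iff_tendsto']
        · have h3 : Tendsto (fun t : ℂ => (t - t0) * (φ t / ψ t) - (t - t0) * (φ t0 / ψ t0))
              (𝓝[≠] t0) (𝓝 (0 - 0 * (φ t0 / ψ t0))) := by
            apply hlim.sub
            have h4 : Tendsto (fun t : ℂ => t - t0) (𝓝 t0) (𝓝 (t0 - t0)) :=
              Continuous.tendsto (by fun_prop) t0
            rw [sub_self] at h4
            exact (h4.mono_left nhdsWithin_le_nhds).mul_const _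
          rw [zero_mul, sub_zero] at h3
          refine h3.congr fun t => ?_
          rw [div_inv_eq_mul]
          ring
        · filter_upwards [self_mem_nhdsWithin] with t ht h5
          exact absurd (sub_eq_zero.mp (inv_eq_zero.mp h5)) ht
      have hup := Complex.differentiableOn_update_limUnder_of_isLittleO (ball_mem_nhds t0 hr) hd ho
      have h6 : χ =ᶠ[𝓝 t0] Function.update (fun t => φ t / ψ t) t0
          (limUnder (𝓝[≠] t0) (fun t => φ t / ψ t)) := by
        filter_upwards [ball_mem_nhds t0 hr] with t ht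
        by_cases htt : t = t0
        · subst htt
          rw [Function.update_self]
          exact if_neg h0
        · rw [Function.update_of_ne htt]
          exact hχ1 t ((hball t ht).1 htt)
      exact (hup.differentiableAt (ball_mem_nhds t0 hr)).congr_of_eventuallyEq h6
  refine ⟨χ, fun t ht => (hdiff t ht).differentiableWithinAt, ?_, hχ1⟩
  intro t ht
  by_cases h0 : ψ t = 0
  · have := hb t ht
    rw [h0, norm_zero, mul_zero, zero_mul] at this
    rw [h0, zero_mul]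
    exact norm_le_zero_iff.mp this
  · rw [hχ1 t h0, mul_div_cancel₀ _ h0]

section

variable {E : Type} [NormedAddCommGroup E] [NormedSpace ℂ E] [FiniteDimensional ℂ E]

/-- the local statement -/
lemma div_local {Ω : Set E} {A B : E → ℂ} (hΩ : IsOpen Ω) (hA : DifferentiableOn ℂ A Ω)
    (hB : DifferentiableOn ℂ B Ω) (p0 : E) (hp0 : p0 ∈ Ω)
    (hne : ∀ U ∈ 𝓝 p0, ∃ q ∈ U, q ∈ Ω ∧ B q ≠ 0)
    (hlog : ∃ U ∈ 𝓝 p0, ∃ K : ℝ, ∀ q ∈ U, q ∈ Ω → ‖A q‖ ≤ K * ‖B q‖ * (1 + |Real.log ‖B q‖|)) :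
    ∃ (U : Set E) (c : E → ℂ), IsOpen U ∧ p0 ∈ U ∧ U ⊆ Ω ∧ DifferentiableOn ℂ c U ∧
      ∀ q ∈ U, A q = B q * c q := by
  obtain ⟨W, hW, K, hK⟩ := hlog
  obtain ⟨r, hr, hball⟩ := Metric.mem_nhds_iff.mp (Filter.inter_mem hW (hΩ.mem_nhds hp0))
  have hbΩ : ball p0 r ⊆ Ω := fun q hq => (hball hq).2
  obtain ⟨q, hq, -, hBq⟩ := hne _ (ball_mem_nhds p0 hr)
  set u := q - p0 with hu
  -- differentiability along lines
  have hline : ∀ (F : E → ℂ), DifferentiableOn ℂ F Ω → ∀ (p : E) (t : ℂ), p + t • u ∈ ball p0 r →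
      DifferentiableAt ℂ (fun t : ℂ => F (p + t • u)) t := by
    intro F hF p t ht
    have h1 : DifferentiableAt ℂ F (p + t • u) := hF.differentiableAt (hΩ.mem_nhds (hbΩ ht))
    have h2 : DifferentiableAt ℂ (fun t : ℂ => p + t • u) t := by fun_prop
    exact h1.comp t h2
  -- `B` is not identically zero on the line through `p0`
  have hisol : ∀ᶠ t in 𝓝[≠] (0 : ℂ), B (p0 + t • u) ≠ 0 := by
    let D0 : Set ℂ := (fun t : ℂ => p0 + t • u) ⁻¹' (ball p0 r)
    have hcont : Continuous (fun t : ℂ => p0 + t • u) := by fun_prop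
    have hD0 : IsOpen D0 := isOpen_ball.preimage hcont
    have hconv : Convex ℝ D0 := by
      intro x hx y hy a b ha hb hab
      have h1 : p0 + (a • x + b • y) • u = a • (p0 + x • u) + b • (p0 + y • u) := by
        have h2 : p0 = a • p0 + b • p0 := by rw [← add_smul, hab, one_smul]
        conv_lhs => rw [h2]
        rw [add_smul, smul_add, smul_add, smul_assoc, smul_assoc]
        abel
      change p0 + (a • x + b • y) • u ∈ ball p0 r
      rw [h1]
      exact convex_ball p0 r hx hy ha hb hab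
    have h00 : (0 : ℂ) ∈ D0 := by
      change p0 + (0 : ℂ) • u ∈ ball p0 r
      rw [zero_smul, add_zero]
      exact mem_ball_self hr
    have h01 : (1 : ℂ) ∈ D0 := by
      change p0 + (1 : ℂ) • u ∈ ball p0 r
      rw [one_smul, hu, add_sub_cancel]
      exact hq
    have hψa : AnalyticOnNhd ℂ (fun t : ℂ => B (p0 + t • u)) D0 :=
      DifferentiableOn.analyticOnNhd
        (fun t ht => (hline B hB p0 t ht).differentiableWithinAt) hD0
    rcases (hψa 0 h00).eventually_eq_zero_or_eventually_ne_zero with h | h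
    · exfalso
      have h1 := hψa.eqOn_zero_of_preconnected_of_eventuallyEq_zero hconv.isPreconnected h00 h h01
      simp only [one_smul, hu, add_sub_cancel, Pi.zero_apply] at h1
      exact hBq h1
    · exact h
  rw [eventually_nhdsWithin_iff, Metric.eventually_nhds_iff_ball] at hisol
  obtain ⟨ρ0, hρ0, hisol⟩ := hisol
  set ρ := min (ρ0 / 2) (r / (4 * (‖u‖ + 1))) with hρ
  have hun : 0 ≤ ‖u‖ := norm_nonneg u
  have hρpos : 0 < ρ := by
    rw [hρ]
    apply lt_min <;> positivity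
  have hρlt : ρ < ρ0 := (min_le_left _ _).trans_lt (by linarith)
  have hρu : ρ * ‖u‖ ≤ r / 4 := by
    have h1 : ρ ≤ r / (4 * (‖u‖ + 1)) := min_le_right _ _
    have h2 : ρ * ‖u‖ ≤ r / (4 * (‖u‖ + 1)) * ‖u‖ := by gcongr
    have h3 : r / (4 * (‖u‖ + 1)) * ‖u‖ ≤ r / 4 := by
      rw [div_mul_eq_mul_div, div_le_div_iff₀ (by positivity) (by norm_num)]
      nlinarith
    linarith
  -- points near `p0`
  have hmem : ∀ p ∈ ball p0 (r / 4), ∀ t ∈ ball (0 : ℂ) (2 * ρ), p + t • u ∈ ball p0 r := by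
    intro p hp t ht
    rw [mem_ball_zero_iff] at ht
    rw [mem_ball, dist_eq_norm] at hp ⊢
    have h1 : p + t • u - p0 = (p - p0) + t • u := by abel
    rw [h1]
    have h2 : ‖t • u‖ ≤ r / 2 := by
      rw [norm_smul]
      have : ‖t‖ * ‖u‖ ≤ (2 * ρ) * ‖u‖ := by gcongr
      linarith
    have := norm_add_le (p - p0) (t • u)
    linarith
  have hsph : sphere (0 : ℂ) ρ ⊆ ball (0 : ℂ) (2 * ρ) := by
    intro t ht
    rw [mem_sphere_zero_iff_norm] at ht
    rw [mem_ball_zero_iff, ht]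
    linarith
  have hnz : ∀ᶠ p in 𝓝 p0, ∀ t ∈ sphere (0 : ℂ) ρ, B (p + t • u) ≠ 0 := by
    apply IsCompact.eventually_forall_of_forall_eventually (isCompact_sphere _ _)
    intro t ht
    have h1 : B (p0 + t • u) ≠ 0 := by
      have ht' := ht
      rw [mem_sphere_zero_iff_norm] at ht'
      apply hisol t
      · rw [mem_ball_zero_iff, ht']; exact hρlt
      · intro h0
        rw [Set.mem_singleton_iff] at h0
        rw [h0, norm_zero] at ht'
        exact hρpos.ne ht'
    have h2 : ContinuousAt (fun z : E × ℂ => B (z.1 + z.2 • u)) (p0, t) := by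
      have h3 : ContinuousAt B (p0 + t • u) :=
        (hB.differentiableAt (hΩ.mem_nhds (hbΩ (hmem p0 (mem_ball_self (by positivity)) t
          (hsph ht))))).continuousAt
      have h4 : ContinuousAt (fun z : E × ℂ => z.1 + z.2 • u) (p0, t) := by fun_prop
      exact ContinuousAt.comp (f := fun z : E × ℂ => z.1 + z.2 • u) (g := B) h3 h4
    exact h2.eventually_ne h1
  obtain ⟨δ0, hδ0, hnz⟩ := Metric.eventually_nhds_iff_ball.mp hnz
  set δ := min δ0 (r / 4) with hδ
  have hδpos : 0 < δ := lt_min hδ0 (by positivity)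
  have hU1 : ∀ p ∈ ball p0 δ, p ∈ ball p0 (r / 4) := fun p hp => ball_subset_ball (min_le_right _ _) hp
  have hU2 : ∀ p ∈ ball p0 δ, p ∈ ball p0 δ0 := fun p hp => ball_subset_ball (min_le_left _ _) hp
  refine ⟨ball p0 δ, fun p => Real.circleAverage (fun t => A (p + t • u) / B (p + t • u)) 0 ρ,
    isOpen_ball, mem_ball_self hδpos, ?_, ?_, ?_⟩
  · intro p hp
    apply hbΩ
    exact ball_subset_ball (by linarith) (hU1 p hp)
  · -- differentiability
    have hfun : (fun p => Real.circleAverage (fun t => A (p + t • u) / B (p + t • u)) 0 ρ) =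
        fun p => ((2 * Real.pi)⁻¹ : ℝ) • ∫ θ in Set.Icc (0 : ℝ) (2 * Real.pi),
          A (p + circleMap 0 ρ θ • u) / B (p + circleMap 0 ρ θ • u) := by
      funext p
      rw [Real.circleAverage, intervalIntegral.integral_of_le (by positivity),
        MeasureTheory.integral_Icc_eq_integral_Ioc]
    rw [hfun]
    apply DifferentiableOn.fun_const_smul
    have hcm : ∀ θ : ℝ, circleMap (0 : ℂ) ρ θ ∈ sphere (0 : ℂ) ρ := fun θ =>
      circleMap_mem_sphere 0 hρpos.le θ
    have hin : ∀ p ∈ ball p0 δ, ∀ θ : ℝ, p + circleMap (0 : ℂ) ρ θ • u ∈ Ω := fun p hp θ =>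
      hbΩ (hmem p (hU1 p hp) _ (hsph (hcm θ)))
    apply differentiableOn_setIntegral (X := ℝ) MeasureTheory.volume isCompact_Icc
      measurableSet_Icc isCompact_Icc.measure_lt_top isOpen_ball
      (f := fun p θ => A (p + circleMap 0 ρ θ • u) / B (p + circleMap 0 ρ θ • u))
    · have hc0 : ContinuousOn (fun z : E × ℝ => z.1 + circleMap (0 : ℂ) ρ z.2 • u)
          (ball p0 δ ×ˢ Set.Icc (0 : ℝ) (2 * Real.pi)) := by
        apply Continuous.continuousOn
        have := continuous_circleMap (0 : ℂ) ρ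
        fun_prop
      have hmaps : Set.MapsTo (fun z : E × ℝ => z.1 + circleMap (0 : ℂ) ρ z.2 • u)
          (ball p0 δ ×ˢ Set.Icc (0 : ℝ) (2 * Real.pi)) Ω := fun z hz => hin z.1 hz.1 z.2
      exact (hA.continuousOn.comp hc0 hmaps).div (hB.continuousOn.comp hc0 hmaps)
        (fun z hz => hnz z.1 (hU2 _ hz.1) _ (hcm z.2))
    · intro θ _ p hp
      have h1 : DifferentiableAt ℂ A (p + circleMap (0 : ℂ) ρ θ • u) :=
        hA.differentiableAt (hΩ.mem_nhds (hin p hp θ))
      have h2 : DifferentiableAt ℂ B (p + circleMap (0 : ℂ) ρ θ • u) :=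
        hB.differentiableAt (hΩ.mem_nhds (hin p hp θ))
      have h3 : DifferentiableAt ℂ (fun p : E => p + circleMap (0 : ℂ) ρ θ • u) p := by fun_prop
      have h4 : DifferentiableAt ℂ (fun p : E => A (p + circleMap (0 : ℂ) ρ θ • u)) p :=
        DifferentiableAt.comp (g := A) p h1 h3
      have h5 : DifferentiableAt ℂ (fun p : E => B (p + circleMap (0 : ℂ) ρ θ • u)) p :=
        DifferentiableAt.comp (g := B) p h2 h3
      have h6 : DifferentiableAt ℂ (fun p : E => A (p + circleMap (0 : ℂ) ρ θ • u) /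
          B (p + circleMap (0 : ℂ) ρ θ • u)) p := by
        simp only [div_eq_mul_inv]
        exact h4.fun_mul (h5.fun_inv (hnz p (hU2 p hp) _ (hcm θ)))
      exact h6.differentiableWithinAt
  · -- the factorisation
    intro p hp
    obtain ⟨χ, hχd, hχ1, hχ2⟩ := quot_one (D := ball (0 : ℂ) (2 * ρ)) isOpen_ball
      (convex_ball _ _).isPreconnected (φ := fun t : ℂ => A (p + t • u))
      (ψ := fun t : ℂ => B (p + t • u))
      (fun t ht => (hline A hA p t (hmem p (hU1 p hp) t ht)).differentiableWithinAt)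
      (fun t ht => (hline B hB p t (hmem p (hU1 p hp) t ht)).differentiableWithinAt)
      ⟨(ρ : ℂ), hsph (by simp [abs_of_pos hρpos]), hnz p (hU2 p hp) _ (by simp [abs_of_pos hρpos])⟩
      (K := K) (fun t ht => hK _ (hball (hmem p (hU1 p hp) t ht)).1
        (hbΩ (hmem p (hU1 p hp) t ht)))
    have h1 : Real.circleAverage (fun t => A (p + t • u) / B (p + t • u)) 0 ρ =
        Real.circleAverage χ 0 ρ := by
      apply Real.circleAverage_congr_sphere
      intro t ht
      rw [abs_of_pos hρpos] at ht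
      exact (hχ2 t (hnz p (hU2 p hp) t ht)).symm
    have h2 : Real.circleAverage χ 0 ρ = χ 0 := by
      apply DiffContOnCl.circleAverage
      rw [abs_of_pos hρpos]
      apply hχd.diffContOnCl_ball
      exact closedBall_subset_ball (by linarith)
    have h3 := hχ1 0 (mem_ball_self (by positivity))
    simp only [zero_smul, add_zero] at h3
    simp only
    rw [h1, h2]
    exact h3

end

theorem div : JobDIV := by
  intro E _ _ _ Ω A B hΩ hA hB hne hlog
  have hloc := fun p hp => div_local hΩ hA hB p hp (hne p hp) (hlog p hp)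
  choose! U c hUo hpU hUΩ hcd hAc using hloc
  have hkey : ∀ p ∈ Ω, ∀ q ∈ U p, c q q = c p q := by
    intro p hp q hq
    have hqΩ : q ∈ Ω := hUΩ p hp hq
    have h1 : Tendsto (c q) (𝓝 q) (𝓝 (c q q)) :=
      ((hcd q hqΩ).differentiableAt ((hUo q hqΩ).mem_nhds (hpU q hqΩ))).continuousAt.tendsto
    have h2 : Tendsto (c p) (𝓝 q) (𝓝 (c p q)) :=
      ((hcd p hp).differentiableAt ((hUo p hp).mem_nhds hq)).continuousAt.tendsto
    refine tendsto_nhds_unique_of_frequently_eq h1 h2 ?_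
    rw [Filter.frequently_iff]
    intro V hV
    obtain ⟨s, hs, -, hBs⟩ := hne q hqΩ _ (Filter.inter_mem hV (Filter.inter_mem
      ((hUo q hqΩ).mem_nhds (hpU q hqΩ)) ((hUo p hp).mem_nhds hq)))
    refine ⟨s, hs.1, ?_⟩
    have e1 := hAc q hqΩ s hs.2.1
    have e2 := hAc p hp s hs.2.2
    rw [e1] at e2
    exact mul_left_cancel₀ hBs e2
  refine ⟨fun p => c p p, ?_, fun p hp => hAc p hp p (hpU p hp)⟩
  intro p hp
  have h1 : (fun q => c q q) =ᶠ[𝓝 p] c p := by
    filter_upwards [(hUo p hp).mem_nhds (hpU p hp)] with q hq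
    exact hkey p hp q hq
  exact (((hcd p hp).differentiableAt ((hUo p hp).mem_nhds (hpU p hp))).congr_of_eventuallyEq
    h1).differentiableWithinAt

end Pool.Agent.Y155.RL
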