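import Mathlib
import Pool.Agent.Y813.RL.Stm

set_option autoImplicit false

/-! Job 192 (MP_f1d0b6_nt): the finite Fourier transform on `Z^20 / A Z^20`. -/

open Matrix Complex

namespace Pool.Agent.Y155.RL

open Pool.Agent.Y813.RL

section

variable {A : Matrix (Fin 20) (Fin 20) ℤ}

/-- the real matrix -/
noncomputable abbrev rm (A : Matrix (Fin 20) (Fin 20) ℤ) : Matrix (Fin 20) (Fin 20) ℝ :=
  A.map (Int.cast : ℤ → ℝ)

lemma bf_eq (A : Matrix (Fin 20) (Fin 20) ℤ) (x y : Fin 20 → ℝ) :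
    bf A x y = x ⬝ᵥ (rm A *ᵥ y) := by
  simp only [bf, dotProduct, mulVec, Finset.mul_sum, Matrix.map_apply, mul_assoc]

lemma rm_posDef (h : PosSymm A) : (rm A).PosDef := by
  apply Matrix.PosDef.of_dotProduct_mulVec_pos
  · ext i j
    have := congrFun (congrFun h.symm i) j
    simp only [Matrix.transpose_apply] at this
    simp [Matrix.conjTranspose_apply, this]
  · intro x hx
    have := h.pos x hx
    rw [bf_eq] at this
    simpa using this

lemma rm_det (A : Matrix (Fin 20) (Fin 20) ℤ) : (rm A).det = (A.det : ℝ) :=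
  (RingHom.map_det (Int.castRingHom ℝ) A).symm

lemma det_pos' (h : PosSymm A) : 0 < A.det := by
  have := (rm_posDef h).det_pos
  rw [rm_det] at this
  exact_mod_cast this

lemma rm_unit (h : PosSymm A) : IsUnit (rm A).det := by
  rw [rm_det, isUnit_iff_ne_zero]
  exact_mod_cast (det_pos' h).ne'

lemma cast_mulVec (A : Matrix (Fin 20) (Fin 20) ℤ) (v : Fin 20 → ℤ) :
    (fun j => ((A *ᵥ v) j : ℝ)) = rm A *ᵥ (fun j => (v j : ℝ)) := by
  ext j
  simp [mulVec, dotProduct]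

lemma bd_def (A : Matrix (Fin 20) (Fin 20) ℤ) (μ ν : Fin 20 → ℤ) :
    bd A μ ν = (fun j => (μ j : ℝ)) ⬝ᵥ ((rm A)⁻¹ *ᵥ (fun j => (ν j : ℝ))) := rfl

lemma bd_add_right (A : Matrix (Fin 20) (Fin 20) ℤ) (μ ν ν' : Fin 20 → ℤ) :
    bd A μ (ν + ν') = bd A μ ν + bd A μ ν' := by
  rw [bd_def, bd_def, bd_def, ← dotProduct_add, ← mulVec_add]
  congr 2
  ext j
  simp

lemma bd_add_left (A : Matrix (Fin 20) (Fin 20) ℤ) (μ μ' ν : Fin 20 → ℤ) :
    bd A (μ + μ') ν = bd A μ ν + bd A μ' ν := by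
  rw [bd_def, bd_def, bd_def, ← add_dotProduct]
  congr 1
  ext j
  simp

lemma bd_neg_right (A : Matrix (Fin 20) (Fin 20) ℤ) (μ ν : Fin 20 → ℤ) :
    bd A μ (-ν) = -bd A μ ν := by
  have h := bd_add_right A μ ν (-ν)
  have h0 : bd A μ 0 = 0 := by
    have := bd_add_right A μ 0 0
    rw [add_zero] at this
    linarith
  rw [add_neg_cancel, h0] at h
  linarith

lemma bd_mulVec_right (h : PosSymm A) (μ v : Fin 20 → ℤ) :
    bd A μ (A *ᵥ v) = ((∑ i, μ i * v i : ℤ) : ℝ) := by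
  rw [bd_def, cast_mulVec, mulVec_mulVec, nonsing_inv_mul _ (rm_unit h), one_mulVec]
  simp [dotProduct]

lemma rm_inv_symm (h : PosSymm A) : ((rm A)⁻¹)ᵀ = (rm A)⁻¹ := by
  rw [transpose_nonsing_inv]
  congr 1
  ext i j
  have := congrFun (congrFun h.symm i) j
  simp only [Matrix.transpose_apply] at this
  simp [this]

lemma bd_symm (h : PosSymm A) (μ ν : Fin 20 → ℤ) : bd A μ ν = bd A ν μ := by
  rw [bd_def, bd_def, dotProduct_mulVec, ← mulVec_transpose, rm_inv_symm h, dotProduct_comm]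

lemma bd_mulVec_left (h : PosSymm A) (μ v : Fin 20 → ℤ) :
    bd A (A *ᵥ v) μ = ((∑ i, μ i * v i : ℤ) : ℝ) := by
  rw [bd_symm h, bd_mulVec_right h]

lemma ee_add (x y : ℂ) : ee (x + y) = ee x * ee y := by
  simp only [ee]
  rw [← Complex.exp_add]
  congr 1
  ring

lemma ee_int (n : ℤ) : ee (n : ℂ) = 1 := by
  simp only [ee]
  rw [Complex.exp_eq_one_iff]
  exact ⟨n, by ring⟩

lemma conj_ee (x : ℝ) : (starRingEnd ℂ) (ee (x : ℂ)) = ee (-(x : ℂ)) := by
  simp only [ee]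
  rw [← Complex.exp_conj]
  congr 1
  simp [Complex.conj_ofNat]

/-- the character -/
noncomputable def chi (A : Matrix (Fin 20) (Fin 20) ℤ) (μ x : Fin 20 → ℤ) : ℂ :=
  ee (-(bd A μ x : ℂ))

lemma chi_add_left (μ μ' x : Fin 20 → ℤ) : chi A (μ + μ') x = chi A μ x * chi A μ' x := by
  simp only [chi]
  rw [← ee_add, bd_add_left]
  congr 1
  push_cast
  ring

lemma chi_add_right (μ x x' : Fin 20 → ℤ) : chi A μ (x + x') = chi A μ x * chi A μ x' := by
  simp only [chi]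
  rw [← ee_add, bd_add_right]
  congr 1
  push_cast
  ring

lemma chi_neg_right (μ x : Fin 20 → ℤ) : chi A μ (-x) = (starRingEnd ℂ) (chi A μ x) := by
  simp only [chi]
  rw [bd_neg_right, ← Complex.ofReal_neg (bd A μ x), conj_ee]

lemma chi_mulVec_right (h : PosSymm A) (μ v : Fin 20 → ℤ) : chi A μ (A *ᵥ v) = 1 := by
  simp only [chi]
  rw [bd_mulVec_right h, ← Complex.ofReal_neg, ← Int.cast_neg]
  exact_mod_cast ee_int (-(∑ i, μ i * v i))

lemma chi_mulVec_left (h : PosSymm A) (μ v : Fin 20 → ℤ) : chi A (A *ᵥ v) μ = 1 := by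
  simp only [chi]
  rw [bd_mulVec_left h, ← Complex.ofReal_neg, ← Int.cast_neg]
  exact_mod_cast ee_int (-(∑ i, μ i * v i))

/-- the lattice `A Z^20` -/
abbrev lat (A : Matrix (Fin 20) (Fin 20) ℤ) : Submodule ℤ (Fin 20 → ℤ) :=
  LinearMap.range A.mulVecLin

lemma mem_lat (x : Fin 20 → ℤ) : x ∈ lat A ↔ ∃ v, x = A *ᵥ v := by
  rw [LinearMap.mem_range]
  constructor
  · rintro ⟨v, rfl⟩
    exact ⟨v, rfl⟩
  · rintro ⟨v, rfl⟩
    exact ⟨v, rfl⟩

lemma mulVecLin_inj (h : PosSymm A) : Function.Injective A.mulVecLin := by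
  intro v w hvw
  have h1 : A *ᵥ v = A *ᵥ w := hvw
  have h2 : rm A *ᵥ (fun j => (v j : ℝ)) = rm A *ᵥ (fun j => (w j : ℝ)) := by
    rw [← cast_mulVec, ← cast_mulVec, h1]
  have h3 : (fun j => (v j : ℝ)) = (fun j => (w j : ℝ)) := by
    have := congrArg (fun z => (rm A)⁻¹ *ᵥ z) h2
    simp only [mulVec_mulVec, nonsing_inv_mul _ (rm_unit h), one_mulVec] at this
    exact this
  ext j
  exact_mod_cast congrFun h3 j

lemma card_quot (h : PosSymm A) : (Nat.card ((Fin 20 → ℤ) ⧸ lat A) : ℤ) = A.det := by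
  let e : (Fin 20 → ℤ) ≃ₗ[ℤ] lat A := LinearEquiv.ofInjective A.mulVecLin (mulVecLin_inj h)
  have h1 := Submodule.natAbs_det_equiv (lat A) e
  have h2 : (lat A).subtype ∘ₗ AddMonoidHom.toIntLinearMap (e : (Fin 20 → ℤ) →+ lat A) =
      A.mulVecLin := by
    apply LinearMap.ext
    intro v
    rfl
  rw [h2] at h1
  have h3 : LinearMap.det A.mulVecLin = A.det := LinearMap.det_toLin' A
  rw [h3] at h1
  rw [← h1, Int.natAbs_of_nonneg (det_pos' h).le]

/-- a nontrivial character -/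
lemma exists_chi_ne (h : PosSymm A) (x : Fin 20 → ℤ) (hx : x ∉ lat A) :
    ∃ μ : Fin 20 → ℤ, chi A μ x ≠ 1 := by
  by_contra hcon
  push Not at hcon
  apply hx
  have hint : ∀ i, ∃ n : ℤ, ((rm A)⁻¹ *ᵥ (fun j => (x j : ℝ))) i = n := by
    intro i
    have h1 := hcon (Pi.single i 1)
    have h2 : bd A (Pi.single i 1) x = ((rm A)⁻¹ *ᵥ (fun j => (x j : ℝ))) i := by
      rw [bd_def]
      have : (fun j => ((Pi.single i 1 : Fin 20 → ℤ) j : ℝ)) = Pi.single i 1 := by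
        ext j
        by_cases hij : j = i
        · subst hij; simp
        · simp [hij]
      rw [this, single_one_dotProduct]
    simp only [chi, ee] at h1
    rw [h2, Complex.exp_eq_one_iff] at h1
    obtain ⟨n, hn⟩ := h1
    refine ⟨-n, ?_⟩
    have h3 : (2 * (Real.pi : ℂ) * I) ≠ 0 := Complex.two_pi_I_ne_zero
    have h4 : (-((((rm A)⁻¹ *ᵥ (fun j => (x j : ℝ))) i : ℝ) : ℂ)) = n := by
      apply mul_left_cancel₀ h3
      rw [hn]
      ring
    have h5 : (((rm A)⁻¹ *ᵥ (fun j => (x j : ℝ))) i : ℝ) = ((-n : ℤ) : ℝ) := by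
      have : ((((rm A)⁻¹ *ᵥ (fun j => (x j : ℝ))) i : ℝ) : ℂ) = (((-n : ℤ) : ℝ) : ℂ) := by
        push_cast
        rw [← h4]
        ring
      exact_mod_cast this
    exact_mod_cast h5
  choose v hv using hint
  rw [mem_lat]
  refine ⟨v, ?_⟩
  have h6 : (fun j => (x j : ℝ)) = fun j => ((A *ᵥ v) j : ℝ) := by
    rw [cast_mulVec]
    have h7 : (rm A)⁻¹ *ᵥ (fun j => (x j : ℝ)) = fun j => (v j : ℝ) := by
      ext j
      exact hv j
    rw [← h7, mulVec_mulVec, mul_nonsing_inv _ (rm_unit h), one_mulVec]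
  ext j
  exact_mod_cast congrFun h6 j

lemma out_mk (x : Fin 20 → ℤ) :
    ∃ v, Quotient.out (Submodule.Quotient.mk (p := lat A) x) = x + A *ᵥ v := by
  have h1 : Submodule.Quotient.mk (p := lat A)
      (Quotient.out (Submodule.Quotient.mk (p := lat A) x)) = Submodule.Quotient.mk x :=
    Quotient.out_eq' _
  rw [Submodule.Quotient.eq] at h1
  obtain ⟨v, hv⟩ := (mem_lat _).mp h1
  exact ⟨v, by rw [← hv]; abel⟩

lemma mk_out (q : (Fin 20 → ℤ) ⧸ lat A) :
    Submodule.Quotient.mk (p := lat A) (Quotient.out q) = q := Quotient.out_eq' _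

lemma finite_quot (h : PosSymm A) : Finite ((Fin 20 → ℤ) ⧸ lat A) := by
  apply Nat.finite_of_card_ne_zero
  have := card_quot h
  have h2 := det_pos' h
  omega

lemma sum_chi (h : PosSymm A) [Fintype ((Fin 20 → ℤ) ⧸ lat A)] (x : Fin 20 → ℤ)
    (hx : x ∉ lat A) : ∑ q : (Fin 20 → ℤ) ⧸ lat A, chi A (Quotient.out q) x = 0 := by
  obtain ⟨μ, hμ⟩ := exists_chi_ne h x hx
  have h1 : ∑ q : (Fin 20 → ℤ) ⧸ lat A, chi A (Quotient.out (q + Submodule.Quotient.mk μ)) x =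
      ∑ q : (Fin 20 → ℤ) ⧸ lat A, chi A (Quotient.out q) x :=
    Equiv.sum_comp (Equiv.addRight (Submodule.Quotient.mk μ : (Fin 20 → ℤ) ⧸ lat A))
      (fun q => chi A (Quotient.out q) x)
  have h2 : ∀ q : (Fin 20 → ℤ) ⧸ lat A, chi A (Quotient.out (q + Submodule.Quotient.mk μ)) x =
      chi A μ x * chi A (Quotient.out q) x := by
    intro q
    have h3 : q + Submodule.Quotient.mk μ = Submodule.Quotient.mk (Quotient.out q + μ) := by
      rw [Submodule.Quotient.mk_add, mk_out]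
    rw [h3]
    obtain ⟨v, hv⟩ := out_mk (A := A) (Quotient.out q + μ)
    rw [hv, chi_add_left, chi_add_left, chi_mulVec_left h]
    ring
  simp_rw [h2] at h1
  rw [← Finset.mul_sum] at h1
  have h4 : (chi A μ x - 1) * ∑ q : (Fin 20 → ℤ) ⧸ lat A, chi A (Quotient.out q) x = 0 := by
    linear_combination h1
  rcases mul_eq_zero.mp h4 with h5 | h5
  · exact absurd (sub_eq_zero.mp h5) hμ
  · exact h5

theorem finFour : JobFinFour := by
  intro A h
  classical
  have hfin := finite_quot h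
  have := Fintype.ofFinite ((Fin 20 → ℤ) ⧸ lat A)
  have hinj : Function.Injective (Quotient.out : ((Fin 20 → ℤ) ⧸ lat A) → (Fin 20 → ℤ)) := by
    intro q q' hqq
    rw [← mk_out q, ← mk_out q', hqq]
  let R : Finset (Fin 20 → ℤ) := Finset.univ.image
    (Quotient.out : ((Fin 20 → ℤ) ⧸ lat A) → (Fin 20 → ℤ))
  have hR : ∀ F : (Fin 20 → ℤ) → ℂ, ∑ μ ∈ R, F μ =
      ∑ q : (Fin 20 → ℤ) ⧸ lat A, F (Quotient.out q) := by
    intro F
    exact Finset.sum_image (fun a _ b _ hab => hinj hab)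
  have hRc : (R.card : ℤ) = A.det := by
    rw [Finset.card_image_of_injective _ hinj, Finset.card_univ, ← Nat.card_eq_fintype_card]
    exact card_quot h
  have hRu : ∀ ρ ∈ R, ∀ σ ∈ R, ρ - σ ∈ lat A → ρ = σ := by
    intro ρ hρ σ hσ hd
    obtain ⟨q, -, rfl⟩ := Finset.mem_image.mp hρ
    obtain ⟨q', -, rfl⟩ := Finset.mem_image.mp hσ
    rw [← Submodule.Quotient.eq, mk_out, mk_out] at hd
    rw [hd]
  have horth : ∀ x, ∑ μ ∈ R, chi A μ x = if x ∈ lat A then (A.det : ℂ) else 0 := by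
    intro x
    split_ifs with hx
    · obtain ⟨v, rfl⟩ := (mem_lat _).mp hx
      simp_rw [chi_mulVec_right h]
      rw [Finset.sum_const, nsmul_eq_mul, mul_one]
      exact_mod_cast congrArg (Int.cast : ℤ → ℂ) hRc
    · rw [hR]
      exact sum_chi h x hx
  refine ⟨det_pos' h, R, ?_, hRc, ?_⟩
  · intro μ
    obtain ⟨v, hv⟩ := out_mk (A := A) μ
    refine ⟨Quotient.out (Submodule.Quotient.mk (p := lat A) μ), ⟨?_, -v, ?_⟩, ?_⟩
    · exact Finset.mem_image_of_mem _ (Finset.mem_univ _)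
    · rw [hv, mulVec_neg]
      abel
    · rintro ρ ⟨hρ, w, hw⟩
      apply hRu ρ hρ _ (Finset.mem_image_of_mem _ (Finset.mem_univ _))
      rw [hv, mem_lat]
      refine ⟨-w - v, ?_⟩
      rw [mulVec_sub, mulVec_neg, hw]
      abel
  · intro a
    have key : ((∑ μ ∈ R, ‖∑ ρ ∈ R, ee (-(bd A μ ρ : ℂ)) * a ρ‖ ^ 2 : ℝ) : ℂ) =
        (((A.det : ℝ) * ∑ ρ ∈ R, ‖a ρ‖ ^ 2 : ℝ) : ℂ) := by
      rw [Complex.ofReal_mul, Complex.ofReal_intCast, Complex.ofReal_sum, Complex.ofReal_sum]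
      simp only [Complex.ofReal_pow]
      have h1 : ∀ μ, ((‖∑ ρ ∈ R, ee (-(bd A μ ρ : ℂ)) * a ρ‖ : ℂ)) ^ 2 =
          ∑ ρ ∈ R, ∑ σ ∈ R, chi A μ (ρ - σ) * (a ρ * (starRingEnd ℂ) (a σ)) := by
        intro μ
        rw [← Complex.mul_conj', map_sum, Finset.sum_mul_sum]
        apply Finset.sum_congr rfl
        intro ρ _
        apply Finset.sum_congr rfl
        intro σ _
        rw [sub_eq_add_neg, chi_add_right, chi_neg_right, map_mul]
        simp only [chi]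
        ring
      simp_rw [h1]
      rw [Finset.sum_comm]
      have h2 : ∀ ρ ∈ R, ∑ μ ∈ R, ∑ σ ∈ R, chi A μ (ρ - σ) * (a ρ * (starRingEnd ℂ) (a σ)) =
          (A.det : ℂ) * (‖a ρ‖ : ℂ) ^ 2 := by
        intro ρ hρ
        rw [Finset.sum_comm]
        have h3 : ∀ σ ∈ R, ∑ μ ∈ R, chi A μ (ρ - σ) * (a ρ * (starRingEnd ℂ) (a σ)) =
            if ρ = σ then (A.det : ℂ) * (‖a ρ‖ : ℂ) ^ 2 else 0 := by
          intro σ hσ
          rw [← Finset.sum_mul, horth]
          by_cases hρσ : ρ = σ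
          · subst hρσ
            rw [if_pos (by rw [sub_self]; exact Submodule.zero_mem _), if_pos rfl,
              Complex.mul_conj']
          · rw [if_neg (fun hm => hρσ (hRu ρ hρ σ hσ hm)), if_neg hρσ, zero_mul]
        rw [Finset.sum_congr rfl h3, Finset.sum_ite_eq, if_pos hρ]
      rw [Finset.sum_congr rfl h2, ← Finset.mul_sum]
    exact_mod_cast key

end

end Pool.Agent.Y155.RL
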