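import Mathlib
import Pool.Agent.Y813.RL.Stm

set_option autoImplicit false

/-! Job 198 (MP_f1d0b6_nt): one-variable coefficient estimates. -/

open Complex Metric Topology Filter

namespace Pool.Agent.Y155.RL

open Pool.Agent.Y813.RL

/-- a branch of the logarithm on a disc -/
lemma exists_log {R : ℝ} (hR : 0 < R) {g : ℂ → ℂ} (hg : DifferentiableOn ℂ g (ball 0 R))
    (h0 : ∀ s ∈ ball (0 : ℂ) R, g s ≠ 0) (h1 : g 0 = 1) :
    ∃ f : ℂ → ℂ, f 0 = 0 ∧ (∀ s ∈ ball (0 : ℂ) R, HasDerivAt f (deriv g s / g s) s) ∧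
      ∀ s ∈ ball (0 : ℂ) R, Complex.exp (f s) = g s := by
  have hd : DifferentiableOn ℂ (fun s => deriv g s / g s) (ball 0 R) :=
    (hg.deriv isOpen_ball).div hg h0
  obtain ⟨f, hf0, hf⟩ := hd.isExactOn_ball.with_val_at 0 0
  refine ⟨f, hf0, hf, fun s hs => ?_⟩
  have hc : ∀ s ∈ ball (0 : ℂ) R, HasDerivAt (fun s => g s * Complex.exp (-f s)) 0 s := by
    intro s hs
    have hgs : HasDerivAt g (deriv g s) s :=
      (hg.differentiableAt (isOpen_ball.mem_nhds hs)).hasDerivAt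
    have h2 := hgs.mul ((hf s hs).neg.cexp)
    have h3 : deriv g s * Complex.exp ((-f) s) +
        g s * (Complex.exp ((-f) s) * -(deriv g s / g s)) = 0 := by
      have := h0 s hs
      field_simp
      ring
    rw [h3] at h2
    exact h2
  have h4 : g s * Complex.exp (-f s) = g 0 * Complex.exp (-f 0) :=
    IsOpen.is_const_of_deriv_eq_zero isOpen_ball (convex_ball 0 R).isPreconnected
      (fun s hs => (hc s hs).differentiableAt.differentiableWithinAt)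
      (fun s hs => (hc s hs).deriv) hs (mem_ball_self hR)
  rw [hf0, h1, neg_zero, Complex.exp_zero, mul_one, Complex.exp_neg] at h4
  have h5 := Complex.exp_ne_zero (f s)
  field_simp at h4
  exact h4.symm

/-- bounds for the logarithm -/
lemma log_bound {R M : ℝ} (hR : 0 < R) (hM : 0 < M) {g f : ℂ → ℂ}
    (hf0 : f 0 = 0) (hfD : DifferentiableOn ℂ f (ball 0 R))
    (hfe : ∀ s ∈ ball (0 : ℂ) R, Complex.exp (f s) = g s)
    (hbd : ∀ s ∈ ball (0 : ℂ) R, ‖g s‖ ≤ Real.exp M) :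
    ∀ s ∈ closedBall (0 : ℂ) (R / 2), ‖f s‖ ≤ 2 * M := by
  have hre : Set.MapsTo f (ball 0 R) {z | z.re ≤ M} := by
    intro s hs
    have := hbd s hs
    rw [← hfe s hs, Complex.norm_exp, Real.exp_le_exp] at this
    exact this
  intro s hs
  have hs1 : ‖s‖ ≤ R / 2 := by simpa using hs
  have hs2 : s ∈ ball (0 : ℂ) R := by
    rw [mem_ball_zero_iff]
    linarith
  have h1 := Complex.borelCaratheodory_zero hM hfD hre hR hs2 hf0
  refine h1.trans ?_
  have h2 : 0 < R - ‖s‖ := by linarith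
  rw [div_le_iff₀ h2]
  have h3 : ‖s‖ ≤ R - ‖s‖ := by linarith
  have h4 : 0 ≤ 2 * M := by linarith
  exact mul_le_mul_of_nonneg_left h3 h4

theorem bc : JobBC := by
  intro m R M g h hm hR hM hg hh hgh h0 hbd
  have h00 : (0 : ℂ) ∈ ball (0 : ℂ) R := mem_ball_self hR
  have hg0 : g 0 = 1 := by rw [hgh 0 h00, zero_pow hm.ne', zero_mul, add_zero]
  obtain ⟨f, hf0, hfd, hfe⟩ := exists_log hR hg h0 hg0
  have hfD : DifferentiableOn ℂ f (ball 0 R) :=
    fun s hs => (hfd s hs).differentiableAt.differentiableWithinAt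
  have hb := log_bound hR hM hf0 hfD hfe hbd
  have hfc : Tendsto f (𝓝 0) (𝓝 0) := by
    have := (hfd 0 h00).continuousAt.tendsto
    rwa [hf0] at this
  have hev1 : ∀ᶠ s in 𝓝 (0 : ℂ), ‖f s‖ ≤ 1 / 2 := by
    have := hfc.norm
    rw [norm_zero] at this
    exact (this.eventually (gt_mem_nhds (by norm_num : (0 : ℝ) < 1 / 2))).mono fun s hs => hs.le
  have hev2 : ∀ᶠ s in 𝓝 (0 : ℂ), s ∈ ball (0 : ℂ) R := isOpen_ball.mem_nhds h00
  have hev3 : ∀ᶠ s in 𝓝 (0 : ℂ), ‖s ^ m * h s - f s‖ ≤ ‖f s‖ ^ 2 := by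
    filter_upwards [hev1, hev2] with s h1 h2
    have h3 := Complex.norm_exp_sub_one_sub_id_le (x := f s) (by linarith)
    rw [hfe s h2, hgh s h2] at h3
    have e : 1 + s ^ m * h s - 1 - f s = s ^ m * h s - f s := by ring
    rwa [e] at h3
  have hO1 : ∀ᶠ s in 𝓝 (0 : ℂ), ‖f s‖ ≤ 2 * (‖s‖ ^ m * ‖h s‖) := by
    filter_upwards [hev1, hev3] with s h1 h3
    have h4 : ‖f s‖ ≤ ‖s ^ m * h s‖ + ‖s ^ m * h s - f s‖ := by
      have := norm_sub_le (s ^ m * h s) (s ^ m * h s - f s)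
      rw [sub_sub_cancel] at this
      exact this
    rw [norm_mul, norm_pow] at h4
    have h5 : ‖f s‖ ^ 2 ≤ ‖f s‖ / 2 := by
      rw [pow_two]
      nlinarith [norm_nonneg (f s)]
    linarith
  have hO2 : f =O[𝓝 0] (fun s : ℂ => ‖s‖ ^ m) := by
    have hhb : ∀ᶠ s in 𝓝 (0 : ℂ), ‖h s‖ ≤ ‖h 0‖ + 1 := by
      exact (hh.norm.tendsto.eventually (gt_mem_nhds (by linarith : ‖h 0‖ < ‖h 0‖ + 1))).mono
        fun s hs => hs.le
    apply Asymptotics.IsBigO.of_bound (2 * (‖h 0‖ + 1))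
    filter_upwards [hO1, hhb] with s h1 h2
    rw [norm_pow, norm_norm]
    have h3 : 0 ≤ ‖s‖ ^ m := by positivity
    calc ‖f s‖ ≤ 2 * (‖s‖ ^ m * ‖h s‖) := h1
      _ ≤ 2 * (‖s‖ ^ m * (‖h 0‖ + 1)) := by gcongr
      _ = _ := by ring
  have hlo : (fun s : ℂ => f s - f 0) =o[𝓝 0] (fun s : ℂ => ‖s - 0‖ ^ (m - 1)) := by
    simp only [hf0, sub_zero]
    exact hO2.trans_isLittleO (Asymptotics.isLittleO_norm_pow_norm_pow (by omega))
  have hR2 : 0 < R / 2 := by linarith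
  have hmaps : Set.MapsTo f (ball 0 (R / 2)) (closedBall (f 0) (2 * M)) := by
    intro s hs
    rw [hf0, mem_closedBall_zero_iff]
    exact hb s (ball_subset_closedBall hs)
  have hkey : ∀ s ∈ ball (0 : ℂ) (R / 2), ‖f s‖ ≤ 2 * M * (2 / R) ^ m * ‖s‖ ^ m := by
    intro s hs
    have h1 := Complex.dist_le_mul_div_pow_of_mapsTo_ball_of_isLittleO
      (hfD.mono (ball_subset_ball (by linarith))) hmaps hlo hs
    rw [hf0, dist_zero_right, dist_zero_right, Nat.sub_add_cancel hm] at h1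
    refine h1.trans (le_of_eq ?_)
    have e : ‖s‖ / (R / 2) = (2 / R) * ‖s‖ := by field_simp
    rw [e, mul_pow]
    ring
  -- pass to the limit
  have hfin : ∀ᶠ s in 𝓝[≠] (0 : ℂ), ‖h s‖ ≤ 2 * M * (2 / R) ^ m * (1 + ‖f s‖) := by
    have e1 := hev3.filter_mono (nhdsWithin_le_nhds (s := {(0 : ℂ)}ᶜ))
    have e2 : ∀ᶠ s in 𝓝[≠] (0 : ℂ), s ∈ ball (0 : ℂ) (R / 2) :=
      Filter.Eventually.filter_mono nhdsWithin_le_nhds (isOpen_ball.mem_nhds (mem_ball_self hR2))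
    filter_upwards [e1, e2, self_mem_nhdsWithin] with s h1 h2 h3
    have hs0 : 0 < ‖s‖ := norm_pos_iff.mpr h3
    have h4 : ‖s‖ ^ m * ‖h s‖ ≤ ‖f s‖ * (1 + ‖f s‖) := by
      have := norm_add_le (s ^ m * h s - f s) (f s)
      rw [sub_add_cancel, norm_mul, norm_pow] at this
      nlinarith
    have h5 := hkey s h2
    have h6 : ‖s‖ ^ m * ‖h s‖ ≤ ‖s‖ ^ m * (2 * M * (2 / R) ^ m * (1 + ‖f s‖)) := by
      calc ‖s‖ ^ m * ‖h s‖ ≤ ‖f s‖ * (1 + ‖f s‖) := h4
        _ ≤ (2 * M * (2 / R) ^ m * ‖s‖ ^ m) * (1 + ‖f s‖) := by gcongr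
        _ = _ := by ring
    exact le_of_mul_le_mul_left h6 (by positivity)
  have hl1 : Tendsto (fun s => ‖h s‖) (𝓝[≠] (0 : ℂ)) (𝓝 ‖h 0‖) :=
    hh.norm.tendsto.mono_left nhdsWithin_le_nhds
  have hl2 : Tendsto (fun s => 2 * M * (2 / R) ^ m * (1 + ‖f s‖)) (𝓝[≠] (0 : ℂ))
      (𝓝 (2 * M * (2 / R) ^ m * (1 + ‖(0 : ℂ)‖))) :=
    ((hfc.mono_left nhdsWithin_le_nhds).norm.const_add 1).const_mul _
  have := le_of_tendsto_of_tendsto hl1 hl2 hfin
  simpa using this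

/-- dividing out a zero -/
lemma divide_zero {U : Set ℂ} {g : ℂ → ℂ} (z : ℂ) (hz : z ≠ 0) (hzU : z ∈ U)
    (hg : AnalyticOnNhd ℂ g U) (hne : analyticOrderAt g z ≠ ⊤) :
    ∃ (k : ℕ) (G : ℂ → ℂ), AnalyticOnNhd ℂ G U ∧ G z ≠ 0 ∧
      ∀ s, g s = (1 - s / z) ^ k * G s := by
  classical
  obtain ⟨g₁, hg₁, hg₁z, hev⟩ := (hg z hzU).analyticOrderAt_ne_top.1 hne
  set k := analyticOrderNatAt g z with hk
  have hfac : ∀ s : ℂ, (s - z) ^ k = (-z) ^ k * (1 - s / z) ^ k := by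
    intro s
    rw [← mul_pow]
    congr 1
    field_simp
    ring
  have hne0 : ∀ s : ℂ, s ≠ z → (1 - s / z) ≠ 0 := by
    intro s hs h
    apply hs
    field_simp at h
    linear_combination -h
  let G : ℂ → ℂ := fun s => if s = z then (-z) ^ k * g₁ z else g s / (1 - s / z) ^ k
  have hGev : G =ᶠ[𝓝 z] fun s => (-z) ^ k * g₁ s := by
    filter_upwards [hev] with s hs
    by_cases hsz : s = z
    · simp [G, hsz]
    · simp only [G, if_neg hsz]
      rw [hs, smul_eq_mul, hfac, div_eq_iff (pow_ne_zero _ (hne0 s hsz))]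
      ring
  refine ⟨k, G, ?_, ?_, ?_⟩
  · intro s hs
    by_cases hsz : s = z
    · subst hsz
      exact (analyticAt_const.mul hg₁).congr hGev.symm
    · have h1 : G =ᶠ[𝓝 s] fun s => g s / (1 - s / z) ^ k := by
        filter_upwards [isOpen_ne.mem_nhds hsz] with t ht
        simp only [G, if_neg ht]
      refine AnalyticAt.congr ?_ h1.symm
      refine (hg s hs).div ?_ (pow_ne_zero _ (hne0 s hsz))
      fun_prop
  · simp only [G, if_true]
    exact mul_ne_zero (pow_ne_zero _ (neg_ne_zero.mpr hz)) hg₁z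
  · intro s
    by_cases hsz : s = z
    · subst hsz
      simp only [G, if_true]
      have h1 : g s = (s - s) ^ k • g₁ s := hev.self_of_nhds
      rw [h1, smul_eq_mul, hfac]
      ring
    · simp only [G, if_neg hsz]
      rw [mul_div_cancel₀ _ (pow_ne_zero _ (hne0 s hsz))]

/-- dividing out finitely many zeros -/
lemma divide_all {ι : Type} {U : Set ℂ} (hU : IsPreconnected U) (hU0 : (0 : ℂ) ∈ U)
    {g : ℂ → ℂ} (hg : AnalyticOnNhd ℂ g U) (h1 : g 0 = 1) (z : ι → ℂ) (Z : Finset ι)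
    (hZ : ∀ i ∈ Z, z i ∈ U ∧ z i ≠ 0) :
    ∃ (k : ι → ℕ) (G : ℂ → ℂ), AnalyticOnNhd ℂ G U ∧ (∀ i ∈ Z, G (z i) ≠ 0) ∧ G 0 = 1 ∧
      (∀ s, g s = (∏ i ∈ Z, (1 - s / z i) ^ k i) * G s) := by
  classical
  induction Z using Finset.induction_on with
  | empty => exact ⟨fun _ => 0, g, hg, by simp, h1, by simp⟩
  | insert j Z hj ih =>
    obtain ⟨k, G, hG, hGZ, hG0, hgG⟩ := ih (fun i hi => hZ i (Finset.mem_insert_of_mem hi))
    obtain ⟨hjU, hj0⟩ := hZ j (Finset.mem_insert_self _ _)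
    have hne : analyticOrderAt G (z j) ≠ ⊤ := by
      refine AnalyticOnNhd.analyticOrderAt_ne_top_of_isPreconnected hG hU hU0 hjU ?_
      intro htop
      rw [analyticOrderAt_eq_top] at htop
      have := htop.self_of_nhds
      rw [hG0] at this
      exact one_ne_zero this
    obtain ⟨n, G', hG', hG'z, hGG'⟩ := divide_zero (z j) hj0 hjU hG hne
    refine ⟨Function.update k j n, G', hG', ?_, ?_, ?_⟩
    · intro i hi
      rcases Finset.mem_insert.mp hi with rfl | hi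
      · exact hG'z
      · intro h0
        apply hGZ i hi
        rw [hGG', h0, mul_zero]
    · have := hGG' 0
      rw [hG0] at this
      simpa using this.symm
    · intro s
      rw [Finset.prod_insert hj, Function.update_self, hgG, hGG' s]
      have : ∏ i ∈ Z, (1 - s / z i) ^ k i = ∏ i ∈ Z, (1 - s / z i) ^ (Function.update k j n i) := by
        apply Finset.prod_congr rfl
        intro i hi
        have hij : i ≠ j := by
          rintro rfl
          exact hj hi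
        rw [Function.update_of_ne hij]
      rw [this]
      ring

/-- the iterated derivatives of the logarithmic derivative of a linear factor -/
lemma iteratedDeriv_inv (z : ℂ) (i : ℕ) :
    iteratedDeriv i (fun s : ℂ => (s - z)⁻¹) 0 = -((i.factorial : ℂ) * (z⁻¹) ^ (i + 1)) := by
  have h1 := congrFun (iter_deriv_inv_linear_sub (𝕜 := ℂ) i 1 z) 0
  have e : (fun s : ℂ => (s - z)⁻¹) = fun s => (1 * s - z)⁻¹ := by
    funext s
    rw [one_mul]
  rw [iteratedDeriv_eq_iterate, e, h1]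
  have h2 : (1 * 0 - z) ^ (-1 - (i : ℤ)) = (-1) ^ (i + 1) * (z⁻¹) ^ (i + 1) := by
    have h3 : (-1 - (i : ℤ)) = -((i + 1 : ℕ) : ℤ) := by
      push_cast
      ring
    rw [h3, zpow_neg, zpow_natCast, mul_zero, zero_sub, neg_pow, mul_inv, inv_pow]
    congr 1
    rw [← inv_pow]
    norm_num
  rw [h2]
  have h4 : (-1 : ℂ) ^ i * (-1) ^ (i + 1) = -1 := by
    rw [← pow_add]
    exact Odd.neg_one_pow ⟨i, by ring⟩
  have h5 : ((-1 : ℂ) ^ i * (i.factorial : ℂ) * 1 ^ i * ((-1) ^ (i + 1) * (z⁻¹) ^ (i + 1))) =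
      ((-1 : ℂ) ^ i * (-1) ^ (i + 1)) * ((i.factorial : ℂ) * (z⁻¹) ^ (i + 1)) := by
    rw [one_pow]
    ring
  rw [h5, h4]
  ring

/-- the order of vanishing of `g - 1` kills the first Taylor coefficients of the logarithmic
derivative. -/
lemma iteratedDeriv_logDeriv_zero {m : ℕ} {g h : ℂ → ℂ} (hg : AnalyticAt ℂ g 0)
    (hh : AnalyticAt ℂ h 0) (hgh : ∀ᶠ s in 𝓝 (0 : ℂ), g s = 1 + s ^ m * h s) (hg0 : g 0 ≠ 0)
    (i : ℕ) (hi : i + 1 < m) : iteratedDeriv i (logDeriv g) 0 = 0 := by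
  have h1 : AnalyticAt ℂ (fun s => g s - 1) 0 := hg.sub analyticAt_const
  have h2 : (m : ℕ∞) ≤ analyticOrderAt (fun s => g s - 1) 0 := by
    rw [natCast_le_analyticOrderAt h1]
    refine ⟨h, hh, ?_⟩
    filter_upwards [hgh] with s hs
    rw [hs, smul_eq_mul, sub_zero]
    ring
  rw [natCast_le_analyticOrderAt_iff_iteratedDeriv_eq_zero h1] at h2
  have h3 : ((m - 1 : ℕ) : ℕ∞) ≤ analyticOrderAt (deriv g) 0 := by
    rw [natCast_le_analyticOrderAt_iff_iteratedDeriv_eq_zero hg.deriv]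
    intro j hj
    have h4 := h2 (j + 1) (by omega)
    rw [iteratedDeriv_succ'] at h4
    have h5 : deriv (fun s => g s - 1) = deriv g := by
      funext s
      rw [deriv_sub_const]
    rw [h5] at h4
    exact h4
  have h6 : AnalyticAt ℂ (fun s => (g s)⁻¹) 0 := hg.inv hg0
  have h7 : ((m - 1 : ℕ) : ℕ∞) ≤ analyticOrderAt (deriv g * fun s => (g s)⁻¹) 0 := by
    rw [analyticOrderAt_mul hg.deriv h6]
    exact h3.trans le_self_add
  rw [natCast_le_analyticOrderAt_iff_iteratedDeriv_eq_zero (hg.deriv.mul h6)] at h7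
  have h8 := h7 i (by omega)
  have h9 : (deriv g * fun s => (g s)⁻¹) = logDeriv g := by
    funext s
    rw [logDeriv_apply, Pi.mul_apply, div_eq_mul_inv]
  rw [h9] at h8
  exact h8

lemma aux_inv (s b : ℂ) (hb : b ≠ 0) (h : 1 - s / b ≠ 0) :
    -(1 / b) / (1 - s / b) = (s - b)⁻¹ := by
  have h4 : s - b ≠ 0 := by
    intro h4
    apply h
    rw [sub_eq_zero.mp h4, div_self hb, sub_self]
  rw [div_eq_iff h, inv_mul_eq_div, eq_div_iff h4]
  field_simp
  ring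

/-- the power sums of the zeros -/
lemma power_sums {m : ℕ} (E : Finset ℂ) (hE1 : ∀ ε ∈ E, ‖ε‖ = 1) {g h : ℂ → ℂ} {a : ℂ} {M : ℝ}
    (hM : 0 < M) (ha : 0 < ‖a‖) (ha2 : ‖a‖ ≤ 1 / 2) (hm : 0 < m)
    (hg : AnalyticOnNhd ℂ g (closedBall 0 1)) (hh : AnalyticOnNhd ℂ h (closedBall 0 1))
    (hgh : ∀ s ∈ closedBall (0 : ℂ) 1, g s = 1 + s ^ m * h s)
    (hbd : ∀ s ∈ closedBall (0 : ℂ) 1, ‖g s‖ ≤ Real.exp M)
    (hz : ∀ s ∈ closedBall (0 : ℂ) 1, g s = 0 → ∃ ε ∈ E, s = a * ε)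
    (hex : ∃ s ∈ closedBall (0 : ℂ) 1, g s = 0) :
    ∃ k : ℂ → ℕ, (∃ ε ∈ E, k ε ≠ 0) ∧ ∀ i : ℕ, 1 ≤ i → i < m →
      ‖∑ ε ∈ E, (k ε : ℂ) * (ε⁻¹) ^ i‖ ≤ (m * (2 * 2 ^ m)) * M * ‖a‖ := by
  have ha0 : a ≠ 0 := norm_pos_iff.mp ha
  have h00 : (0 : ℂ) ∈ closedBall (0 : ℂ) 1 := mem_closedBall_self zero_le_one
  have hg0 : g 0 = 1 := by rw [hgh 0 h00, zero_pow hm.ne', zero_mul, add_zero]
  have hE0 : ∀ ε ∈ E, ε ≠ 0 := by
    intro ε hε h0
    have := hE1 ε hε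
    rw [h0, norm_zero] at this
    exact zero_ne_one this
  obtain ⟨k, G, hG, hGZ, hG0, hgG⟩ := divide_all (convex_closedBall (0 : ℂ) 1).isPreconnected h00
    hg hg0 (fun ε : ℂ => a * ε) E (fun ε hε => ⟨by
      rw [mem_closedBall_zero_iff, norm_mul, hE1 ε hε, mul_one]
      linarith, mul_ne_zero ha0 (hE0 ε hε)⟩)
  -- `G` has no zeros
  have hGne : ∀ s ∈ closedBall (0 : ℂ) 1, G s ≠ 0 := by
    intro s hs h0
    have h1 : g s = 0 := by rw [hgG, h0, mul_zero]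
    obtain ⟨ε, hε, rfl⟩ := hz s hs h1
    exact hGZ ε hε h0
  -- bound on the unit circle
  have hGs : ∀ s ∈ sphere (0 : ℂ) 1, ‖G s‖ ≤ Real.exp M := by
    intro s hs
    have hs1 : ‖s‖ = 1 := by simpa using hs
    have h1 := hbd s (sphere_subset_closedBall hs)
    rw [hgG, norm_mul] at h1
    have h2 : 1 ≤ ‖∏ ε ∈ E, (1 - s / (a * ε)) ^ k ε‖ := by
      rw [norm_prod]
      apply Finset.one_le_prod
      intro ε hε
      rw [norm_pow]
      apply one_le_pow₀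
      have h3 : ‖s / (a * ε)‖ = 1 / ‖a‖ := by
        rw [norm_div, norm_mul, hE1 ε hε, mul_one, hs1]
      have h4 : 2 ≤ 1 / ‖a‖ := by
        rw [le_div_iff₀ ha]
        linarith
      have h5 := norm_sub_norm_le (s / (a * ε)) 1
      rw [norm_sub_rev, h3, norm_one] at h5
      linarith
    calc ‖G s‖ = 1 * ‖G s‖ := (one_mul _).symm
      _ ≤ ‖∏ ε ∈ E, (1 - s / (a * ε)) ^ k ε‖ * ‖G s‖ := by gcongr
      _ ≤ _ := h1
  have hGd : DifferentiableOn ℂ G (ball 0 1) :=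
    fun s hs => (hG s (ball_subset_closedBall hs)).differentiableAt.differentiableWithinAt
  have hGc : DiffContOnCl ℂ G (ball 0 1) := by
    refine ⟨hGd, ?_⟩
    rw [closure_ball _ one_ne_zero]
    exact hG.continuousOn
  have hGb : ∀ s ∈ ball (0 : ℂ) 1, ‖G s‖ ≤ Real.exp M := by
    intro s hs
    apply Complex.norm_le_of_forall_mem_frontier_norm_le isBounded_ball hGc _ (subset_closure hs)
    intro t ht
    rw [frontier_ball _ one_ne_zero] at ht
    exact hGs t ht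
  obtain ⟨f, hf0, hfd, hfe⟩ := exists_log one_pos hGd
    (fun s hs => hGne s (ball_subset_closedBall hs)) hG0
  have hfD : DifferentiableOn ℂ f (ball 0 1) :=
    fun s hs => (hfd s hs).differentiableAt.differentiableWithinAt
  have hb := log_bound one_pos hM hf0 hfD hfe hGb
  have h0b : (0 : ℂ) ∈ ball (0 : ℂ) 1 := mem_ball_self one_pos
  -- the Taylor coefficients of `f`
  have hfj : ∀ j : ℕ, ‖iteratedDeriv j f 0‖ ≤ j.factorial * (2 * M) * 2 ^ j := by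
    intro j
    have hdc : DiffContOnCl ℂ f (ball 0 (1 / 2)) := by
      refine ⟨hfD.mono (ball_subset_ball (by norm_num)), ?_⟩
      rw [closure_ball _ (by norm_num)]
      exact hfD.continuousOn.mono (closedBall_subset_ball (by norm_num))
    have h1 := Complex.norm_iteratedDeriv_le_of_forall_mem_sphere_norm_le j
      (by norm_num : (0 : ℝ) < 1 / 2) hdc (fun z hz => hb z (sphere_subset_closedBall hz))
    refine h1.trans (le_of_eq ?_)
    rw [one_div, inv_pow, div_inv_eq_mul]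
  -- logarithmic derivatives near `0`
  have hAG : AnalyticAt ℂ G 0 := hG 0 h00
  have hAg : AnalyticAt ℂ g 0 := hg 0 h00
  have hgev : ∀ᶠ s in 𝓝 (0 : ℂ), g s = 1 + s ^ m * h s := by
    filter_upwards [closedBall_mem_nhds (0 : ℂ) one_pos] with s hs
    exact hgh s hs
  have hld : ∀ᶠ s in 𝓝 (0 : ℂ), logDeriv g s =
      (∑ ε ∈ E, (k ε : ℂ) * (s - a * ε)⁻¹) + deriv f s := by
    filter_upwards [ball_mem_nhds (0 : ℂ) ha, ball_mem_nhds (0 : ℂ) one_pos] with s hs hs'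
    have hlin : ∀ ε ∈ E, 1 - s / (a * ε) ≠ 0 := by
      intro ε hε h0
      have h1 : s = a * ε := by
        have := mul_ne_zero ha0 (hE0 ε hε)
        rw [sub_eq_zero, eq_comm, div_eq_one_iff_eq this] at h0
        exact h0
      rw [mem_ball_zero_iff, h1, norm_mul, hE1 ε hε, mul_one] at hs
      exact lt_irrefl _ hs
    have hP : ∏ ε ∈ E, (1 - s / (a * ε)) ^ k ε ≠ 0 :=
      Finset.prod_ne_zero_iff.mpr fun ε hε => pow_ne_zero _ (hlin ε hε)
    have hPd : ∀ ε : ℂ, DifferentiableAt ℂ (fun s : ℂ => (1 - s / (a * ε)) ^ k ε) s := by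
      intro ε
      fun_prop
    have hPd' : DifferentiableAt ℂ (fun s : ℂ => ∏ ε ∈ E, (1 - s / (a * ε)) ^ k ε) s := by
      fun_prop
    have hgfun : g = fun s => (∏ ε ∈ E, (1 - s / (a * ε)) ^ k ε) * G s := funext hgG
    rw [hgfun, logDeriv_mul s hP (hGne s (ball_subset_closedBall hs'))
      hPd' (hG s (ball_subset_closedBall hs')).differentiableAt,
      logDeriv_prod (f := fun ε s => (1 - s / (a * ε)) ^ k ε)
        (fun ε hε => pow_ne_zero _ (hlin ε hε)) (fun ε _ => hPd ε),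
      (hfd s hs').deriv]
    congr 1
    apply Finset.sum_congr rfl
    intro ε hε
    rw [logDeriv_fun_pow (by fun_prop)]
    congr 1
    rw [logDeriv_apply]
    have hd1 : deriv (fun s : ℂ => 1 - s / (a * ε)) s = -(1 / (a * ε)) := by
      rw [deriv_const_sub, deriv_div_const, deriv_id'']
    rw [hd1]
    exact aux_inv _ _ (mul_ne_zero ha0 (hE0 ε hε)) (hlin ε hε)
  refine ⟨k, ?_, ?_⟩
  · -- some multiplicity is nonzero
    by_contra hcon
    push Not at hcon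
    obtain ⟨s, hs, hs0⟩ := hex
    apply hGne s hs
    rw [hgG, Finset.prod_congr rfl (fun ε hε => by rw [hcon ε hε, pow_zero]),
      Finset.prod_const_one, one_mul] at hs0
    exact hs0
  · intro i hi1 him
    obtain ⟨j, rfl⟩ : ∃ j, i = j + 1 := ⟨i - 1, by omega⟩
    have h1 := iteratedDeriv_logDeriv_zero hAg (hh 0 h00) hgev (by rw [hg0]; exact one_ne_zero) j him
    have h2 : iteratedDeriv j (logDeriv g) 0 = iteratedDeriv j
        (fun s => (∑ ε ∈ E, (k ε : ℂ) * (s - a * ε)⁻¹) + deriv f s) 0 :=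
      (Filter.EventuallyEq.iteratedDeriv (f₁ := logDeriv g) (f₂ := fun s =>
        (∑ ε ∈ E, (k ε : ℂ) * (s - a * ε)⁻¹) + deriv f s) hld j).self_of_nhds
    have hAf : AnalyticAt ℂ f 0 := hfD.analyticAt (isOpen_ball.mem_nhds h0b)
    have hinv : ∀ ε ∈ E, ContDiffAt ℂ j (fun s : ℂ => (k ε : ℂ) * (s - a * ε)⁻¹) 0 := by
      intro ε hε
      apply AnalyticAt.contDiffAt
      apply analyticAt_const.mul
      apply AnalyticAt.inv (by fun_prop)
      rw [zero_sub]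
      exact neg_ne_zero.mpr (mul_ne_zero ha0 (hE0 ε hε))
    rw [h1, iteratedDeriv_fun_add (ContDiffAt.sum hinv) hAf.deriv.contDiffAt,
      iteratedDeriv_fun_sum hinv, ← iteratedDeriv_succ'] at h2
    have h3 : ∑ ε ∈ E, iteratedDeriv j (fun s : ℂ => (k ε : ℂ) * (s - a * ε)⁻¹) 0 =
        -((j.factorial : ℂ) * ((a⁻¹) ^ (j + 1) * ∑ ε ∈ E, (k ε : ℂ) * (ε⁻¹) ^ (j + 1))) := by
      rw [Finset.mul_sum, Finset.mul_sum, ← Finset.sum_neg_distrib]
      apply Finset.sum_congr rfl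
      intro ε hε
      rw [iteratedDeriv_const_mul_field, iteratedDeriv_inv,
        mul_inv, mul_pow]
      ring
    rw [h3] at h2
    have h4 : (j.factorial : ℂ) * ((a⁻¹) ^ (j + 1) * ∑ ε ∈ E, (k ε : ℂ) * (ε⁻¹) ^ (j + 1)) =
        iteratedDeriv (j + 1) f 0 := by
      linear_combination h2
    have h5 := hfj (j + 1)
    rw [← h4, norm_mul, norm_mul, norm_pow, norm_inv, Complex.norm_natCast] at h5
    set Q := ‖∑ ε ∈ E, (k ε : ℂ) * (ε⁻¹) ^ (j + 1)‖ with hQ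
    have hf1 : (0 : ℝ) < j.factorial := by exact_mod_cast Nat.factorial_pos j
    rw [Nat.factorial_succ] at h5
    push_cast at h5
    have h6 : ‖a‖⁻¹ ^ (j + 1) * Q ≤ ((j : ℝ) + 1) * (2 * M) * 2 ^ (j + 1) := by
      have : (j.factorial : ℝ) * (‖a‖⁻¹ ^ (j + 1) * Q) ≤
          (j.factorial : ℝ) * (((j : ℝ) + 1) * (2 * M) * 2 ^ (j + 1)) := by
        refine h5.trans (le_of_eq ?_)
        ring
      exact le_of_mul_le_mul_left this hf1
    have h7 : Q ≤ (((j : ℝ) + 1) * (2 * M) * 2 ^ (j + 1)) * ‖a‖ ^ (j + 1) := by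
      rw [inv_pow, inv_mul_le_iff₀ (by positivity)] at h6
      linarith
    have h8 : ‖a‖ ^ (j + 1) ≤ ‖a‖ := by
      apply pow_le_of_le_one ha.le (by linarith) (by omega)
    have h9 : ((j : ℝ) + 1) ≤ m := by exact_mod_cast him.le
    have h10 : (2 : ℝ) ^ (j + 1) ≤ 2 ^ m := pow_le_pow_right₀ (by norm_num) him.le
    calc Q ≤ (((j : ℝ) + 1) * (2 * M) * 2 ^ (j + 1)) * ‖a‖ ^ (j + 1) := h7
      _ ≤ ((m : ℝ) * (2 * M) * 2 ^ m) * ‖a‖ := by gcongr
      _ = _ := by ring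

/-- interpolation by a polynomial without constant term -/
lemma interp (m : ℕ) (E : Finset ℂ) (hEm : E.card < m) (hE0 : ∀ ε ∈ E, ε ≠ 0) (ε0 : ℂ)
    (h0 : ε0 ∈ E) : ∃ p : ℕ → ℂ, ∀ ε ∈ E,
      ∑ i ∈ Finset.Ico 1 m, p i * (ε⁻¹) ^ i = if ε = ε0 then 1 else 0 := by
  classical
  let q : Polynomial ℂ := Polynomial.X * ∏ ε ∈ E.erase ε0, (Polynomial.X - Polynomial.C ε⁻¹)
  have hq0 : q.eval ε0⁻¹ ≠ 0 := by
    simp only [q, Polynomial.eval_mul, Polynomial.eval_X, Polynomial.eval_prod,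
      Polynomial.eval_sub, Polynomial.eval_C]
    apply mul_ne_zero (inv_ne_zero (hE0 ε0 h0))
    apply Finset.prod_ne_zero_iff.mpr
    intro ε hε h
    rw [Finset.mem_erase] at hε
    exact hε.1 (inv_injective (sub_eq_zero.mp h)).symm
  have hdeg : q.natDegree < m := by
    have h1 : (∏ ε ∈ E.erase ε0, (Polynomial.X - Polynomial.C ε⁻¹) : Polynomial ℂ).natDegree =
        (E.erase ε0).card := by
      rw [Polynomial.natDegree_prod_of_monic _ _ (fun ε _ => Polynomial.monic_X_sub_C _)]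
      simp
    have h2 : q.natDegree ≤ 1 + (E.erase ε0).card := by
      refine (Polynomial.natDegree_mul_le).trans ?_
      rw [h1, Polynomial.natDegree_X]
    rw [Finset.card_erase_of_mem h0] at h2
    have := Finset.card_pos.mpr ⟨ε0, h0⟩
    omega
  refine ⟨fun i => (q.eval ε0⁻¹)⁻¹ * q.coeff i, fun ε hε => ?_⟩
  have h3 : ∑ i ∈ Finset.Ico 1 m, q.coeff i * (ε⁻¹) ^ i = q.eval ε⁻¹ := by
    rw [Polynomial.eval_eq_sum_range' hdeg, Finset.range_eq_Ico,
      Finset.sum_eq_sum_Ico_succ_bot (show 0 < m by omega)]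
    have : q.coeff 0 = 0 := by
      simp [q]
    rw [this, zero_mul, zero_add]
  have h4 : ∑ i ∈ Finset.Ico 1 m, (q.eval ε0⁻¹)⁻¹ * q.coeff i * (ε⁻¹) ^ i =
      (q.eval ε0⁻¹)⁻¹ * q.eval ε⁻¹ := by
    rw [← h3, Finset.mul_sum]
    apply Finset.sum_congr rfl
    intro i _
    ring
  rw [h4]
  split_ifs with h
  · rw [h, inv_mul_cancel₀ hq0]
  · have : q.eval ε⁻¹ = 0 := by
      simp only [q, Polynomial.eval_mul, Polynomial.eval_X, Polynomial.eval_prod,
        Polynomial.eval_sub, Polynomial.eval_C]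
      rw [Finset.prod_eq_zero (f := fun x => ε⁻¹ - x⁻¹) (Finset.mem_erase.mpr ⟨h, hε⟩)
        (sub_self _), mul_zero]
    rw [this, mul_zero]

theorem vd : JobVD := by
  intro m E hEm hE1
  classical
  have hE0 : ∀ ε ∈ E, ε ≠ 0 := by
    intro ε hε h0
    have := hE1 ε hε
    rw [h0, norm_zero] at this
    exact zero_ne_one this
  have hm : 0 < m := by omega
  have hP : ∀ ε0 : ℂ, ∃ p : ℕ → ℂ, ε0 ∈ E → ∀ ε ∈ E,
      ∑ i ∈ Finset.Ico 1 m, p i * (ε⁻¹) ^ i = if ε = ε0 then 1 else 0 := by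
    intro ε0
    by_cases h : ε0 ∈ E
    · obtain ⟨p, hp⟩ := interp m E hEm hE0 ε0 h
      exact ⟨p, fun _ => hp⟩
    · exact ⟨0, fun h' => absurd h' h⟩
  choose p hp using hP
  set K : ℝ := 1 + ∑ ε ∈ E, (∑ i ∈ Finset.Ico 1 m, ‖p ε i‖) * (m * (2 * 2 ^ m)) with hK
  have hKn : 0 ≤ ∑ ε ∈ E, (∑ i ∈ Finset.Ico 1 m, ‖p ε i‖) * ((m : ℝ) * (2 * 2 ^ m)) := by
    positivity
  refine ⟨K, by linarith, ?_⟩
  intro g h a M ha ha2 hg hh hgh hbd hz hex
  -- the case of positive `M`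
  have main : ∀ M' : ℝ, 0 < M' → M ≤ M' → 1 ≤ K * M' * ‖a‖ := by
    intro M' hM' hMM
    obtain ⟨k, ⟨ε0, hε0, hk0⟩, hk⟩ := power_sums E hE1 hM' ha ha2 hm hg hh hgh
      (fun s hs => (hbd s hs).trans (Real.exp_le_exp.mpr hMM)) hz hex
    have h1 : ∑ i ∈ Finset.Ico 1 m, p ε0 i * ∑ ε ∈ E, (k ε : ℂ) * (ε⁻¹) ^ i = k ε0 := by
      have h2 : ∀ i ∈ Finset.Ico 1 m, p ε0 i * ∑ ε ∈ E, (k ε : ℂ) * (ε⁻¹) ^ i =
          ∑ ε ∈ E, (k ε : ℂ) * (p ε0 i * (ε⁻¹) ^ i) := by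
        intro i _
        rw [Finset.mul_sum]
        apply Finset.sum_congr rfl
        intro ε _
        ring
      rw [Finset.sum_congr rfl h2, Finset.sum_comm]
      have h3 : ∀ ε ∈ E, ∑ i ∈ Finset.Ico 1 m, (k ε : ℂ) * (p ε0 i * (ε⁻¹) ^ i) =
          if ε = ε0 then (k ε0 : ℂ) else 0 := by
        intro ε hε
        rw [← Finset.mul_sum, hp ε0 hε0 ε hε]
        split_ifs with h
        · rw [h, mul_one]
        · rw [mul_zero]
      rw [Finset.sum_congr rfl h3, Finset.sum_ite_eq', if_pos hε0]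
    have h4 : (1 : ℝ) ≤ ‖(k ε0 : ℂ)‖ := by
      rw [Complex.norm_natCast]
      exact_mod_cast Nat.one_le_iff_ne_zero.mpr hk0
    have h5 : ‖(k ε0 : ℂ)‖ ≤ (∑ i ∈ Finset.Ico 1 m, ‖p ε0 i‖) * ((m * (2 * 2 ^ m)) * M' * ‖a‖) := by
      rw [← h1, Finset.sum_mul]
      refine (norm_sum_le _ _).trans (Finset.sum_le_sum ?_)
      intro i hi
      rw [Finset.mem_Ico] at hi
      rw [norm_mul]
      exact mul_le_mul_of_nonneg_left (hk i hi.1 hi.2) (norm_nonneg _)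
    have h6 : (∑ i ∈ Finset.Ico 1 m, ‖p ε0 i‖) * ((m : ℝ) * (2 * 2 ^ m)) ≤ K := by
      have h7 : (∑ i ∈ Finset.Ico 1 m, ‖p ε0 i‖) * ((m : ℝ) * (2 * 2 ^ m)) ≤
          ∑ ε ∈ E, (∑ i ∈ Finset.Ico 1 m, ‖p ε i‖) * ((m : ℝ) * (2 * 2 ^ m)) :=
        Finset.single_le_sum (f := fun ε => (∑ i ∈ Finset.Ico 1 m, ‖p ε i‖) *
          ((m : ℝ) * (2 * 2 ^ m))) (fun ε _ => by positivity) hε0
      linarith
    calc (1 : ℝ) ≤ ‖(k ε0 : ℂ)‖ := h4
      _ ≤ (∑ i ∈ Finset.Ico 1 m, ‖p ε0 i‖) * ((m * (2 * 2 ^ m)) * M' * ‖a‖) := h5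
      _ = ((∑ i ∈ Finset.Ico 1 m, ‖p ε0 i‖) * ((m : ℝ) * (2 * 2 ^ m))) * M' * ‖a‖ := by ring
      _ ≤ K * M' * ‖a‖ := by gcongr
  have hM0 : 0 ≤ M := by
    have h00 : (0 : ℂ) ∈ closedBall (0 : ℂ) 1 := mem_closedBall_self zero_le_one
    have h1 := hbd 0 h00
    rw [hgh 0 h00, zero_pow hm.ne', zero_mul, add_zero, norm_one] at h1
    by_contra hneg
    push Not at hneg
    have : Real.exp M < 1 := by
      rw [← Real.exp_zero]
      exact Real.exp_lt_exp.mpr hneg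
    linarith
  have hlim : Tendsto (fun δ : ℝ => K * (M + δ) * ‖a‖) (𝓝[>] 0) (𝓝 (K * (M + 0) * ‖a‖)) := by
    apply Tendsto.mono_left _ nhdsWithin_le_nhds
    exact Continuous.tendsto (by fun_prop) 0
  rw [add_zero] at hlim
  refine ge_of_tendsto hlim ?_
  filter_upwards [self_mem_nhdsWithin] with δ hδ
  have hδ' : 0 < δ := hδ
  exact main (M + δ) (by linarith) (by linarith)

end Pool.Agent.Y155.RL
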